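import Pool.Agent.H58.KP.Final

/-!
# Maximum `k`-intersecting families of permutations: all `n ≥ 10 ^ 206` and all `k`

Write `m = n - k`. If `n ≥ 10 ^ 206`, or `m ≥ 10 ^ 100`, or `(500 m) ^ 2 ≤ n`, then every
`k`-intersecting family of permutations of `n` points of maximum size is a double translate of some
`M_i`; more generally this holds for every `k`-intersecting family which has at least as many
members as every `M_i`.
-/

set_option autoImplicit false

/-- The family `M_i`: the permutations with at least `k + i` fixed points among the first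
`k + 2 i` points. -/
def Pool.Agent.Results.MP_b2edf8_co.AllLargeN.M (n k i : ℕ) :
    Finset (Equiv.Perm (Fin n)) :=
  Finset.univ.filter (fun π : Equiv.Perm (Fin n) =>
    k + i ≤ (Finset.univ.filter (fun j : Fin n => j.val < k + 2 * i ∧ π j = j)).card)

/-- Any two distinct members of `F` agree on at least `k` points. -/
def Pool.Agent.Results.MP_b2edf8_co.AllLargeN.Intersecting {n : ℕ} (k : ℕ)
    (F : Finset (Equiv.Perm (Fin n))) : Prop :=
  ∀ σ ∈ F, ∀ τ ∈ F, σ ≠ τ → k ≤ (Finset.univ.filter (fun j : Fin n => σ j = τ j)).card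

namespace Pool.Agent.Results.MP_b2edf8_co.AllLargeN

open Finset Pool.Agent.H71.KInt

/-- The two ranges in terms of `n - k`. -/
theorem main_range (n k : ℕ) (hk : 1 ≤ k) (hkn : k ≤ n)
    (hn : 10 ^ 100 ≤ n - k ∨ (500 * (n - k)) ^ 2 ≤ n) (F : Finset (Equiv.Perm (Fin n)))
    (hF : Intersecting k F) (hbig : ∀ i : ℕ, k + 2 * i ≤ n → (M n k i).card ≤ F.card) :
    ∃ i : ℕ, k + 2 * i ≤ n ∧
      ∃ σ τ : Equiv.Perm (Fin n), F = (M n k i).image (fun π => σ * π * τ) := by
  rcases hn with hn | hn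
  · exact Pool.Agent.H58.KP.large hk (show n = k + (n - k) by omega) hn F (pdist_of_agree hF) hbig
  · have hi : k + 2 * idx (n - k) ≤ n := by
      unfold idx
      split_ifs
      · omega
      · omega
    have h1 : (M n k (idx (n - k))).card ≤ F.card := hbig _ hi
    obtain ⟨σ, τ, h⟩ := stab_all hkn hn F hF (by
      show (M n k (idx (n - k))).card ≤ 2 * F.card
      omega)
    refine ⟨idx (n - k), hi, σ, τ, eq_of_subset_of_card_le h ?_⟩
    exact card_image_le.trans h1

theorem result : ∀ n k : ℕ, 1 ≤ k → k ≤ n →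
    (10 ^ 206 ≤ n ∨ 10 ^ 100 ≤ n - k ∨ (500 * (n - k)) ^ 2 ≤ n) →
    ∀ F : Finset (Equiv.Perm (Fin n)), Intersecting k F →
      ((∀ G : Finset (Equiv.Perm (Fin n)), Intersecting k G → G.card ≤ F.card) →
        ∃ i : ℕ, k + 2 * i ≤ n ∧
          ∃ σ τ : Equiv.Perm (Fin n), F = (M n k i).image (fun π => σ * π * τ)) ∧
      ((∀ i : ℕ, k + 2 * i ≤ n → (M n k i).card ≤ F.card) →
        ∃ i : ℕ, k + 2 * i ≤ n ∧
          ∃ σ τ : Equiv.Perm (Fin n), F = (M n k i).image (fun π => σ * π * τ)) := by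
  intro n k hk hkn hn F hF
  have hn' : 10 ^ 100 ≤ n - k ∨ (500 * (n - k)) ^ 2 ≤ n := by
    rcases hn with hn | hn
    · by_contra hcon
      push Not at hcon
      obtain ⟨h1, h2⟩ := hcon
      have h3 : (500 * (n - k)) ^ 2 ≤ (500 * 10 ^ 100) ^ 2 :=
        Nat.pow_le_pow_left (Nat.mul_le_mul_left _ h1.le) 2
      have h5 : (10 : ℕ) ^ 206 < (500 * 10 ^ 100) ^ 2 :=
        lt_of_le_of_lt hn (lt_of_lt_of_le h2 h3)
      norm_num at h5
    · exact hn
  have key := main_range n k hk hkn hn' F hF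
  exact ⟨fun hmax => key (fun i _ => hmax _ (fun σ hσ τ hτ _ => Mfam_intersecting σ τ hσ hτ)),
    key⟩

end Pool.Agent.Results.MP_b2edf8_co.AllLargeN
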